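import Pool.Agent.Q145.MT.MomPoly
import Pool.Agent.Q145.MT.LinGreedy
import Pool.Agent.H373R2.T7.Fund
import Pool.Agent.H318R2.Cr.Prod

set_option autoImplicit false
set_option maxHeartbeats 4000000

/-! # An upper bound for the number of shifts of a set of `r` points into the primes -/

namespace Pool.Agent.Q145.RC

open Finset Filter
open Pool.Agent.TH101.RG (prod_inv_primeFactors inv_ge_one one_le_prod_real)
open Pool.Agent.Q145.MT (card_filter_inst ratio_small)
open Pool.Agent.H373R2.T7 (pz nuB PerB mem_pz sys_fund Vz nuB_le)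

open scoped Classical

/-- the classes -/
def QH (H : Finset ℕ) (p a : ℕ) : Prop := ∃ n ∈ H, p ∣ n + a

theorem nuB_eq (H : Finset ℕ) (p : ℕ) (hp : 0 < p) :
    nuB (QH H) p = (H.image (fun n => (p - n % p) % p)).card := by
  unfold nuB
  congr 1
  ext a
  rw [mem_filter, mem_range, mem_image]
  unfold QH
  constructor
  · rintro ⟨h1, n, hn, h2⟩
    refine ⟨n, hn, ?_⟩
    have h3 := Nat.mod_lt n hp
    have h4 : p ∣ n % p + a := by
      have h5 : n + a = p * (n / p) + (n % p + a) := by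
        have := Nat.div_add_mod n p
        omega
      rw [h5] at h2
      exact (Nat.dvd_add_right (Dvd.intro _ rfl)).1 h2
    obtain ⟨q, hq⟩ := h4
    have hq1 : q = 0 ∨ q = 1 := by
      by_contra h
      have h6 : 2 ≤ q := by omega
      have h7 : p * 2 ≤ p * q := Nat.mul_le_mul_left _ h6
      omega
    rcases hq1 with h | h
    · rw [h, mul_zero] at hq
      have h6 : n % p = 0 := by omega
      rw [h6, Nat.sub_zero, Nat.mod_self]
      omega
    · rw [h, mul_one] at hq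
      have h6 : p - n % p = a := by omega
      rw [h6]
      exact Nat.mod_eq_of_lt h1
  · rintro ⟨n, hn, rfl⟩
    refine ⟨Nat.mod_lt _ hp, n, hn, ?_⟩
    rw [Nat.dvd_iff_mod_eq_zero, Nat.add_mod, Nat.mod_mod, ← Nat.add_mod, Nat.add_mod,
      ← Nat.add_mod]
    have h3 := Nat.mod_lt n hp
    have h5 : n + (p - n % p) = p * (n / p) + p := by
      have := Nat.div_add_mod n p
      omega
    rw [h5]
    simp

theorem perB (H : Finset ℕ) : PerB (QH H) H.card where
  per := by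
    intro p n
    unfold QH
    have h1 : ∀ m, p ∣ m + n ↔ p ∣ m + n % p := fun m =>
      (Nat.ModEq.dvd_iff (Nat.ModEq.add_left m (Nat.mod_modEq n p).symm) (dvd_refl p))
    constructor
    · rintro ⟨m, hm, h⟩
      exact ⟨m, hm, (h1 m).1 h⟩
    · rintro ⟨m, hm, h⟩
      exact ⟨m, hm, (h1 m).2 h⟩
  few := by
    intro p hp
    rw [nuB_eq H p hp.pos]
    exact card_image_le

/-- the product of the differences -/
def DH (H : Finset ℕ) : ℕ := ∏ q ∈ (H ×ˢ H).filter (fun q => q.1 < q.2), (q.2 - q.1)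

theorem DH_ne (H : Finset ℕ) : DH H ≠ 0 := by
  unfold DH
  rw [prod_ne_zero_iff]
  intro q hq
  have := (mem_filter.1 hq).2
  omega

theorem DH_le (H : Finset ℕ) (Y : ℕ) (hY : 1 ≤ Y) (hH : ∀ n ∈ H, n ≤ Y) : DH H ≤ Y ^ (H.card ^ 2) := by
  unfold DH
  calc ∏ q ∈ (H ×ˢ H).filter (fun q => q.1 < q.2), (q.2 - q.1)
      ≤ ∏ _q ∈ (H ×ˢ H).filter (fun q => q.1 < q.2), Y := by
        apply Finset.prod_le_prod (fun _ _ => Nat.zero_le _)
        intro q hq
        have := hH q.2 (mem_product.1 (mem_filter.1 hq).1).2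
        omega
    _ = Y ^ ((H ×ˢ H).filter (fun q => q.1 < q.2)).card := by rw [prod_const]
    _ ≤ Y ^ (H.card ^ 2) := by
        apply Nat.pow_le_pow_right hY
        refine (card_filter_le _ _).trans ?_
        rw [card_product, sq]

theorem nuB_full (H : Finset ℕ) (p : ℕ) (hp : 0 < p) (hD : ¬ p ∣ DH H) : nuB (QH H) p = H.card := by
  rw [nuB_eq H p hp]
  apply card_image_of_injOn
  have key : ∀ m n : ℕ, m ∈ H → n ∈ H → m < n → (p - m % p) % p ≠ (p - n % p) % p := by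
    intro m n hm hn hmn h
    apply hD
    have h1 : p ∣ n - m := by
      have h3 := Nat.mod_lt m hp
      have h4 := Nat.mod_lt n hp
      have h5 : m % p = n % p := by
        rcases Nat.eq_zero_or_pos (m % p) with h6 | h6
        · rw [h6, Nat.sub_zero, Nat.mod_self] at h
          rcases Nat.eq_zero_or_pos (n % p) with h7 | h7
          · rw [h6, h7]
          · rw [Nat.mod_eq_of_lt (by omega : p - n % p < p)] at h
            omega
        · rw [Nat.mod_eq_of_lt (by omega : p - m % p < p)] at h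
          rcases Nat.eq_zero_or_pos (n % p) with h7 | h7
          · rw [h7, Nat.sub_zero, Nat.mod_self] at h
            omega
          · rw [Nat.mod_eq_of_lt (by omega : p - n % p < p)] at h
            omega
      exact (Nat.modEq_iff_dvd' hmn.le).1 h5
    exact h1.trans (dvd_prod_of_mem (fun q : ℕ × ℕ => q.2 - q.1) (mem_filter.2 ⟨mem_product.2 ⟨hm, hn⟩, hmn⟩ : (m, n) ∈ _))
  intro m hm n hn h
  rcases lt_trichotomy m n with h1 | h1 | h1
  · exact absurd h (key m n hm hn h1)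
  · exact h1
  · exact absurd h.symm (key n m hn hm h1)

theorem nuB_pos (H : Finset ℕ) (hH : H.Nonempty) (p : ℕ) (hp : 0 < p) : 1 ≤ nuB (QH H) p := by
  rw [nuB_eq H p hp]
  exact card_pos.2 (hH.image _)

/-- the product of the densities -/
theorem prod_bd (H : Finset ℕ) (hH : H.Nonempty) (y : ℕ) :
    ∏ p ∈ pz y, (1 - (nuB (QH H) p : ℝ) / p) ≤
      Vz y ^ H.card * ((DH H : ℝ) / (DH H).totient) ^ (H.card - 1) := by
  have hr : 1 ≤ H.card := card_pos.2 hH
  have h1 : ∀ p ∈ pz y, 1 - (nuB (QH H) p : ℝ) / p ≤ (1 - 1 / (p : ℝ)) ^ H.card *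
      (if p ∣ DH H then ((1 - 1 / (p : ℝ))⁻¹) ^ (H.card - 1) else 1) := by
    intro p hp
    have hpp := (mem_pz.1 hp).2
    have hp2 : (2 : ℝ) ≤ p := by exact_mod_cast hpp.two_le
    have hp0 : (0 : ℝ) < p := by linarith
    have h2 : 1 / (p : ℝ) ≤ 1 / 2 := one_div_le_one_div_of_le (by norm_num) hp2
    have h3 : 0 < 1 / (p : ℝ) := by positivity
    split_ifs with h
    · have h4 : (1 - 1 / (p : ℝ)) ^ H.card * ((1 - 1 / (p : ℝ))⁻¹) ^ (H.card - 1) = 1 - 1 / (p : ℝ) := by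
        have h5 : (1 - 1 / (p : ℝ)) ≠ 0 := by linarith
        conv_lhs => rw [show H.card = (H.card - 1) + 1 by omega]
        rw [pow_succ, Nat.add_sub_cancel, mul_right_comm, ← mul_pow, mul_inv_cancel₀ h5, one_pow, one_mul]
      rw [h4]
      have h5 : (1 : ℝ) ≤ nuB (QH H) p := by exact_mod_cast nuB_pos H hH p hpp.pos
      have h6 : 1 / (p : ℝ) ≤ (nuB (QH H) p : ℝ) / p := div_le_div_of_nonneg_right h5 hp0.le
      linarith
    · rw [mul_one, nuB_full H p hpp.pos h]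
      have h4 := one_add_mul_le_pow (show (-2 : ℝ) ≤ -(1 / (p : ℝ)) by linarith) H.card
      have h5 : 1 + (H.card : ℝ) * -(1 / (p : ℝ)) = 1 - (H.card : ℝ) / p := by ring
      rw [h5] at h4
      rw [← sub_eq_add_neg] at h4
      exact h4
  have h0 : ∀ p ∈ pz y, 0 ≤ 1 - (nuB (QH H) p : ℝ) / p := by
    intro p hp
    have hp0 : (0 : ℝ) < p := by exact_mod_cast (mem_pz.1 hp).2.pos
    have h2 : (nuB (QH H) p : ℝ) / p ≤ 1 := by
      rw [div_le_one hp0]
      exact_mod_cast nuB_le _ p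
    linarith
  refine (prod_le_prod h0 h1).trans ?_
  rw [prod_mul_distrib, prod_pow, ← prod_filter, prod_pow]
  unfold Vz
  apply mul_le_mul_of_nonneg_left
  · apply pow_le_pow_left₀
    · apply prod_nonneg
      intro p hp
      exact (lt_of_lt_of_le one_pos (inv_ge_one (mem_pz.1 (mem_filter.1 hp).1).2)).le
    · rw [← prod_inv_primeFactors _ (DH_ne H)]
      have h2 : (pz y).filter (fun p => p ∣ DH H) ⊆ (DH H).primeFactors := by
        intro p hp
        obtain ⟨h3, h4⟩ := mem_filter.1 hp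
        exact Nat.mem_primeFactors.2 ⟨(mem_pz.1 h3).2, h4, DH_ne H⟩
      rw [← prod_sdiff h2]
      apply le_mul_of_one_le_left
      · apply prod_nonneg
        intro p hp
        exact (lt_of_lt_of_le one_pos (inv_ge_one (mem_pz.1 (mem_filter.1 hp).1).2)).le
      · apply one_le_prod_real
        intro p hp
        exact inv_ge_one (Nat.prime_of_mem_primeFactors (mem_sdiff.1 hp).1)
  · apply pow_nonneg
    apply prod_nonneg
    intro p hp
    have hp2 : (2 : ℝ) ≤ p := by exact_mod_cast (mem_pz.1 hp).2.two_le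
    have h2 : 1 / (p : ℝ) ≤ 1 / 2 := one_div_le_one_div_of_le (by norm_num) hp2
    linarith

theorem Vz_eq (z : ℕ) : Vz z = Pool.Agent.H318R2.Cr.V z := by
  unfold Vz Pool.Agent.H318R2.Cr.V
  apply prod_congr _ (fun _ _ => rfl)
  ext p
  rw [mem_pz, Pool.Agent.H318R2.Cr.mem_Pz, and_comm]

theorem exists_root_nat (K x0 Y : ℕ) (hK : 1 ≤ K) (hY : (x0 + 2) ^ K ≤ Y) : ∃ y : ℕ, x0 ≤ y ∧ 2 ≤ y ∧ y ^ K ≤ Y ∧
    Real.log Y ≤ 2 * K * Real.log y := by
  have hxY : x0 + 2 ≤ Y := (Nat.le_self_pow (by omega) _).trans hY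
  set y := Nat.findGreatest (fun y => y ^ K ≤ Y) Y with hy
  have h1 : x0 + 2 ≤ y := Nat.le_findGreatest hxY hY
  have h2 : y ^ K ≤ Y := Nat.findGreatest_spec (P := fun y => y ^ K ≤ Y) hxY hY
  refine ⟨y, by omega, by omega, h2, ?_⟩
  have h3 : Y < (y + 1) ^ K := by
    by_contra h
    push Not at h
    have h4 : y + 1 ≤ Y := (Nat.le_self_pow (by omega) _).trans h
    have := Nat.le_findGreatest (P := fun y => y ^ K ≤ Y) h4 h
    omega
  have h4 : Y ≤ y ^ (2 * K) := by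
    calc Y ≤ (y + 1) ^ K := h3.le
      _ ≤ (y ^ 2) ^ K := by
        apply Nat.pow_le_pow_left
        nlinarith
      _ = y ^ (2 * K) := by rw [← pow_mul]
  have h5 : ((Y : ℕ) : ℝ) ≤ (y : ℝ) ^ (2 * K) := by exact_mod_cast h4
  have h6 : (0 : ℝ) < Y := by
    have : 0 < Y := by omega
    exact_mod_cast this
  have h7 := Real.log_le_log h6 h5
  rw [Real.log_pow] at h7
  push_cast at h7
  exact h7

/-- the growth conditions -/
theorem growth (r x0 : ℕ) : ∀ᶠ Y : ℕ in atTop, x0 ≤ Y ∧ 1 ≤ Real.log (Real.log Y) ∧ 3 ≤ Real.log Y ∧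
    (r : ℝ) ^ 2 * Real.log Y + 4 ≤ Real.log Y ^ 2 ∧ 2 * √(Y : ℝ) ≤ Y / Real.log Y ^ r := by
  have hl : Tendsto (fun Y : ℕ => Real.log Y) atTop atTop :=
    Real.tendsto_log_atTop.comp tendsto_natCast_atTop_atTop
  have hll : Tendsto (fun Y : ℕ => Real.log (Real.log Y)) atTop atTop := Real.tendsto_log_atTop.comp hl
  have h1 : ∀ᶠ Y : ℕ in atTop, Real.log (Y : ℝ) ^ r ≤ 1 / 2 * (Y : ℝ) ^ (1 / 2 : ℝ) := by
    have h2 := isLittleO_log_rpow_rpow_atTop (r : ℝ) (show (0 : ℝ) < 1 / 2 by norm_num)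
    have h3 := h2.bound (show (0 : ℝ) < 1 / 2 by norm_num)
    have h4 := tendsto_natCast_atTop_atTop (R := ℝ) |>.eventually h3
    filter_upwards [h4, hl.eventually_ge_atTop 1] with Y h5 h6
    rw [Real.rpow_natCast, Real.norm_of_nonneg (by positivity), Real.norm_of_nonneg (by positivity)] at h5
    exact h5
  filter_upwards [h1, hl.eventually_ge_atTop 3, hll.eventually_ge_atTop 1, eventually_ge_atTop x0,
    hl.eventually_ge_atTop ((r : ℝ) ^ 2 + 2)] with Y h2 h3 h4 h5 h6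
  refine ⟨h5, h4, h3, by nlinarith [sq_nonneg (r : ℝ)], ?_⟩
  rw [← Real.sqrt_eq_rpow] at h2
  rw [le_div_iff₀ (by positivity)]
  have h7 : √(Y : ℝ) * √(Y : ℝ) = Y := Real.mul_self_sqrt (Nat.cast_nonneg _)
  have h8 : 0 ≤ √(Y : ℝ) := Real.sqrt_nonneg _
  nlinarith

theorem shifts_bd (r : ℕ) (hr : 1 ≤ r) : ∃ C : ℝ, 0 < C ∧ ∃ Y₀ : ℕ, ∀ Y : ℕ, Y₀ ≤ Y → ∀ H : Finset ℕ, H.card = r →
    (∀ n ∈ H, n ≤ Y) → (((Icc 1 Y).filter (fun a => ∀ n ∈ H, (n + a).Prime)).card : ℝ) ≤
      C * Real.log (Real.log Y) ^ (r - 1) / Real.log Y ^ r * Y := by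
  obtain ⟨K, x0, hK, hF⟩ := sys_fund r hr 1 one_pos
  obtain ⟨c₁, c₂, hc₁, hc₁₂, hcz⟩ := Pool.Agent.H318R2.Cr.cz_bounds
  have hc₂ : 0 < c₂ := lt_of_lt_of_le hc₁ hc₁₂
  obtain ⟨Y₀, hY₀⟩ := eventually_atTop.1 (growth r ((x0 + 2) ^ (K + 1) + 3))
  refine ⟨2 * (2 * (K + 1) * c₂) ^ r * (2 * Real.exp 2 / c₁) ^ (r - 1) + 1, by positivity, Y₀, fun Y hY H hHr hHY => ?_⟩
  obtain ⟨g1, g2, g3, g4, g5⟩ := hY₀ Y hY
  obtain ⟨y, hy1, hy2, hy3, hy4⟩ := exists_root_nat (K + 1) x0 Y (by omega) (by omega)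
  have hH : H.Nonempty := card_pos.1 (by omega)
  have hY3 : 3 ≤ Y := by omega
  have hYr : (3 : ℝ) ≤ Y := by exact_mod_cast hY3
  have hy2r : (2 : ℝ) ≤ y := by exact_mod_cast hy2
  have hyK : y ^ K ≤ Y := (Nat.pow_le_pow_right (by omega) (by omega)).trans hy3
  have hyY : y * y ≤ Y := by
    refine le_trans ?_ hy3
    rw [← sq]
    exact Nat.pow_le_pow_right (by omega) (by omega)
  have h1 := hF Y y hy1 hyK (QH H) (by have := perB H; rwa [hHr] at this) Y
  set L := Real.log (Y : ℝ) with hL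
  set G := Real.log L with hG
  have hL0 : 0 < L := by linarith
  have hG0 : 0 < G := by linarith
  have hY0 : (0 : ℝ) < Y := by linarith
  have hly : 0 < Real.log (y : ℝ) := Real.log_pos (by linarith)
  -- the product of the densities
  have hV : Vz y ≤ 2 * (K + 1) * c₂ / L := by
    have h2 := (hcz y hy2).2
    rw [← Vz_eq] at h2
    rw [le_div_iff₀ hL0]
    have hV0 : 0 ≤ Vz y := by
      rw [Vz_eq]
      exact (Pool.Agent.H318R2.Cr.V_pos y).le
    push_cast at hy4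
    calc Vz y * L ≤ Vz y * (2 * (K + 1) * Real.log y) := mul_le_mul_of_nonneg_left hy4 hV0
      _ = 2 * (K + 1) * (Vz y * Real.log y) := by ring
      _ ≤ 2 * (K + 1) * c₂ := mul_le_mul_of_nonneg_left h2 (by positivity)
  have hV0 : 0 ≤ Vz y := by
    rw [Vz_eq]
    exact (Pool.Agent.H318R2.Cr.V_pos y).le
  -- the singular factor
  have hD : (DH H : ℝ) / (DH H).totient ≤ 2 * Real.exp 2 / c₁ * G := by
    set z := max 3 ⌈Real.log (DH H : ℝ)⌉₊ with hz
    have hz3 : 3 ≤ z := le_max_left _ _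
    have h2 : Real.log (DH H : ℝ) ≤ z := (Nat.le_ceil _).trans (by exact_mod_cast le_max_right _ _)
    have h3 := ratio_small z (DH H) hz3 (DH_ne H) h2
    have h4 : ∏ p ∈ ((Icc 1 z).filter Nat.Prime).filter (fun p => p ∣ DH H), (1 - 1 / (p : ℝ))⁻¹ ≤ (Vz z)⁻¹ := by
      unfold Vz
      rw [← prod_inv_distrib]
      have h5 : ((Icc 1 z).filter Nat.Prime).filter (fun p => p ∣ DH H) ⊆ pz z := filter_subset _ _
      rw [← prod_sdiff h5]
      apply le_mul_of_one_le_left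
      · apply prod_nonneg
        intro p hp
        exact (lt_of_lt_of_le one_pos (inv_ge_one (mem_filter.1 (mem_filter.1 hp).1).2)).le
      · apply one_le_prod_real
        intro p hp
        exact inv_ge_one (mem_pz.1 (mem_sdiff.1 hp).1).2
    have hz0 : 0 < Vz z := by
      rw [Vz_eq]
      exact Pool.Agent.H318R2.Cr.V_pos z
    have hzr : (3 : ℝ) ≤ z := by exact_mod_cast hz3
    have hlz : 0 < Real.log (z : ℝ) := Real.log_pos (by linarith)
    have h5 : (Vz z)⁻¹ ≤ Real.log z / c₁ := by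
      have h6 := (hcz z (by omega)).1
      rw [← Vz_eq] at h6
      rw [inv_le_iff_one_le_mul₀ hz0, div_mul_eq_mul_div, le_div_iff₀ hc₁, one_mul]
      linarith [h6, mul_comm (Vz z) (Real.log z)]
    have h6 : Real.log (DH H : ℝ) ≤ (r : ℝ) ^ 2 * L := by
      have h7 : ((DH H : ℕ) : ℝ) ≤ (Y : ℝ) ^ (r ^ 2) := by
        have := DH_le H Y (by omega) hHY
        rw [hHr] at this
        exact_mod_cast this
      have h8 : (0 : ℝ) < (DH H : ℝ) := by
        have := Nat.pos_of_ne_zero (DH_ne H)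
        exact_mod_cast this
      have h9 := Real.log_le_log h8 h7
      rw [Real.log_pow] at h9
      push_cast at h9
      exact h9
    have h7 : (z : ℝ) ≤ L ^ 2 := by
      rw [hz, Nat.cast_max]
      apply max_le
      · push_cast
        nlinarith
      · have h8 : (⌈Real.log (DH H : ℝ)⌉₊ : ℝ) < Real.log (DH H : ℝ) + 1 := by
          apply Nat.ceil_lt_add_one
          apply Real.log_nonneg
          have := Nat.pos_of_ne_zero (DH_ne H)
          exact_mod_cast this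
        linarith
    have h8 : Real.log (z : ℝ) ≤ 2 * G := by
      have := Real.log_le_log (by linarith) h7
      rw [Real.log_pow] at this
      exact_mod_cast this
    calc (DH H : ℝ) / (DH H).totient ≤ Real.exp 2 * (Vz z)⁻¹ :=
          h3.trans (mul_le_mul_of_nonneg_left h4 (Real.exp_pos _).le)
      _ ≤ Real.exp 2 * (Real.log z / c₁) := mul_le_mul_of_nonneg_left h5 (Real.exp_pos _).le
      _ ≤ Real.exp 2 * (2 * G / c₁) := by gcongr
      _ = 2 * Real.exp 2 / c₁ * G := by ring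
  have hprod : ∏ p ∈ pz y, (1 - (nuB (QH H) p : ℝ) / p) ≤
      (2 * (K + 1) * c₂ / L) ^ r * (2 * Real.exp 2 / c₁ * G) ^ (r - 1) := by
    refine (prod_bd H hH y).trans ?_
    rw [hHr]
    apply mul_le_mul (pow_le_pow_left₀ hV0 hV r) (pow_le_pow_left₀ (by positivity) hD _) (by positivity)
    positivity
  -- the count
  have hcount : ((Icc 1 Y).filter (fun a => ∀ n ∈ H, (n + a).Prime)).card ≤
      ((Icc 1 Y).filter (fun n : ℕ => ∀ p ∈ pz y, ¬ QH H p n)).card + y := by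
    have h2 : (Icc 1 Y).filter (fun a => ∀ n ∈ H, (n + a).Prime) ⊆
        (Icc 1 Y).filter (fun n : ℕ => ∀ p ∈ pz y, ¬ QH H p n) ∪ Icc 1 y := by
      intro a ha
      obtain ⟨h3, h4⟩ := mem_filter.1 ha
      have h3' := mem_Icc.1 h3
      by_cases h5 : a ≤ y
      · exact mem_union_right _ (mem_Icc.2 ⟨h3'.1, h5⟩)
      · apply mem_union_left
        refine mem_filter.2 ⟨h3, ?_⟩
        rintro p hp ⟨n, hn, hd⟩
        have h6 := mem_pz.1 hp
        have h7 := (Nat.prime_dvd_prime_iff_eq h6.2 (h4 n hn)).1 hd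
        omega
    refine (card_le_card h2).trans ((card_union_le _ _).trans ?_)
    rw [Nat.card_Icc, Nat.add_sub_cancel]
  have hcr : (((Icc 1 Y).filter (fun a => ∀ n ∈ H, (n + a).Prime)).card : ℝ) ≤
      (((Icc 1 Y).filter (fun n : ℕ => ∀ p ∈ pz y, ¬ QH H p n)).card : ℝ) + y := by exact_mod_cast hcount
  have h2 : (((Icc 1 Y).filter (fun n : ℕ => ∀ p ∈ pz y, ¬ QH H p n)).card : ℝ) ≤
      2 * (Y * ∏ p ∈ pz y, (1 - (nuB (QH H) p : ℝ) / p)) + √(Y : ℝ) := by
    have h3 := (abs_le.1 h1).2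
    have h4 : ((((Icc 1 Y).filter (fun n : ℕ => ∀ p ∈ pz y, ¬ QH H p n)).card : ℕ) : ℝ) ≤
        Y * ∏ p ∈ pz y, (1 - (nuB (QH H) p : ℝ) / p) + (1 * (Y * ∏ p ∈ pz y, (1 - (nuB (QH H) p : ℝ) / p)) + √(Y : ℝ)) := by
      have h5 : (((Icc 1 Y).filter (fun n : ℕ => ∀ p ∈ pz y, ¬ QH H p n)).card : ℝ) =
          ((@Finset.filter _ (fun n : ℕ => ∀ p ∈ pz y, ¬ QH H p n) (fun _ => Classical.propDecidable _) (Icc 1 Y)).card : ℝ) :=
        congrArg Nat.cast (card_filter_inst _ _ _ _)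
      linarith
    linarith
  have h3 : (y : ℝ) ≤ √(Y : ℝ) := by
    apply Real.le_sqrt_of_sq_le
    rw [sq]
    exact_mod_cast hyY
  have h4 : (1 : ℝ) ≤ G ^ (r - 1) := one_le_pow₀ g2
  have h5 : (Y : ℝ) / L ^ r ≤ 1 * G ^ (r - 1) / L ^ r * Y := by
    rw [one_mul, div_mul_eq_mul_div]
    apply div_le_div_of_nonneg_right _ (by positivity)
    nlinarith
  calc (((Icc 1 Y).filter (fun a => ∀ n ∈ H, (n + a).Prime)).card : ℝ)
      ≤ 2 * (Y * ((2 * (K + 1) * c₂ / L) ^ r * (2 * Real.exp 2 / c₁ * G) ^ (r - 1))) + 2 * √(Y : ℝ) := by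
        have := mul_le_mul_of_nonneg_left hprod hY0.le
        linarith
    _ ≤ 2 * (Y * ((2 * (K + 1) * c₂ / L) ^ r * (2 * Real.exp 2 / c₁ * G) ^ (r - 1))) +
        1 * G ^ (r - 1) / L ^ r * Y := by linarith
    _ = (2 * (2 * (K + 1) * c₂) ^ r * (2 * Real.exp 2 / c₁) ^ (r - 1) + 1) * G ^ (r - 1) / L ^ r * Y := by
        rw [div_pow, mul_pow (2 * Real.exp 2 / c₁) G]
        ring

end Pool.Agent.Q145.RC
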