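import Pool.Agent.H386R2.HL.E

set_option autoImplicit false
set_option maxHeartbeats 4000000

/-! # Windows of primes -/

namespace Pool.Agent.Q145.RC

open Finset Filter

theorem pnt_window_up (ε : ℝ) (hε : 0 < ε) : ∃ x₀ : ℕ, ∀ x : ℕ, x₀ ≤ x → ∀ j : ℕ, j ≤ x →
    (Nat.primeCounting (x + j) : ℝ) - Nat.primeCounting j ≤ (1 + ε) * (x / Real.log x) := by
  set η : ℝ := min (1 / 2) (ε / 4) with hη
  have hη0 : 0 < η := by positivity
  have hη1 : η ≤ 1 / 2 := min_le_left _ _
  have hη2 : 4 * η ≤ ε := by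
    have := min_le_right (1 / 2 : ℝ) (ε / 4)
    rw [← hη] at this
    linarith
  have h1 := Helper507.PNT.pi_tendsto
  have h2 := (h1.eventually (Icc_mem_nhds (show 1 - η < 1 by linarith) (show 1 < 1 + η by linarith)))
  obtain ⟨u₀, hu₀⟩ := Filter.eventually_atTop.1 h2
  have e3 : ∀ᶠ x : ℝ in Filter.atTop, u₀ ≤ η * x :=
    (Filter.tendsto_id.const_mul_atTop hη0).eventually_ge_atTop u₀
  have e4 : ∀ᶠ x : ℝ in Filter.atTop, u₀ ≤ x := Filter.eventually_ge_atTop u₀
  have e5 : ∀ᶠ x : ℝ in Filter.atTop, (3 : ℝ) ≤ x := Filter.eventually_ge_atTop 3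
  have e6 : ∀ᶠ x : ℝ in Filter.atTop, (3 : ℝ) ≤ η * x :=
    (Filter.tendsto_id.const_mul_atTop hη0).eventually_ge_atTop 3
  obtain ⟨x₀, hx₀⟩ := Filter.eventually_atTop.1
    (tendsto_natCast_atTop_atTop (R := ℝ) |>.eventually (e3.and (e4.and (e5.and e6))))
  refine ⟨x₀, fun x hx j hj => ?_⟩
  obtain ⟨f3, f4, f5, f6⟩ := hx₀ x hx
  have hx3 : (0 : ℝ) < x := by linarith
  have hlx : 0 < Real.log x := Real.log_pos (by linarith)
  have hjx : (j : ℝ) ≤ x := by exact_mod_cast hj
  have hj0 : (0 : ℝ) ≤ j := Nat.cast_nonneg j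
  -- upper bound
  have g1 : (Nat.primeCounting (x + j) : ℝ) ≤ (1 + η) * ((x + j) / Real.log x) := by
    have h3 := (hu₀ ((x + j : ℕ) : ℝ) (by push_cast; linarith)).2
    rw [Nat.floor_natCast] at h3
    have h5 : 0 < ((x + j : ℕ) : ℝ) := by push_cast; linarith
    have h4 : Real.log x ≤ Real.log ((x + j : ℕ) : ℝ) := by
      apply Real.log_le_log hx3
      push_cast
      linarith
    rw [div_le_iff₀ h5] at h3
    have h7 : (Nat.primeCounting (x + j) : ℝ) * Real.log x ≤
        (Nat.primeCounting (x + j) : ℝ) * Real.log ((x + j : ℕ) : ℝ) :=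
      mul_le_mul_of_nonneg_left h4 (Nat.cast_nonneg _)
    rw [← mul_div_assoc, le_div_iff₀ hlx]
    push_cast at h3 h7
    linarith
  -- lower bound
  have g2 : (1 - η) * ((j - η * x) / Real.log x) ≤ (Nat.primeCounting j : ℝ) := by
    rcases lt_or_ge (j : ℝ) (η * x) with h | h
    · have h3 : (1 - η) * ((j - η * x) / Real.log x) ≤ 0 := by
        apply mul_nonpos_of_nonneg_of_nonpos (by linarith)
        apply div_nonpos_of_nonpos_of_nonneg (by linarith) hlx.le
      exact h3.trans (Nat.cast_nonneg _)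
    · have h3 := (hu₀ (j : ℝ) (by linarith)).1
      rw [Nat.floor_natCast] at h3
      have h5 : (0 : ℝ) < j := by linarith
      rw [le_div_iff₀ h5] at h3
      have h4 : Real.log j ≤ Real.log x := Real.log_le_log h5 hjx
      have h6 : (Nat.primeCounting j : ℝ) * Real.log j ≤ (Nat.primeCounting j : ℝ) * Real.log x :=
        mul_le_mul_of_nonneg_left h4 (Nat.cast_nonneg _)
      rw [← mul_div_assoc, div_le_iff₀ hlx]
      have h7 : (1 - η) * (j - η * x) ≤ (1 - η) * j := by
        apply mul_le_mul_of_nonneg_left _ (by linarith)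
        nlinarith
      linarith
  have e : (1 + η) * ((x + j) / Real.log x) - (1 - η) * ((j - η * x) / Real.log x) ≤ (1 + ε) * (x / Real.log x) := by
    have e1 : (1 + ε) * (x / Real.log x) - ((1 + η) * ((x + j) / Real.log x) - (1 - η) * ((j - η * x) / Real.log x)) =
        ((1 + ε) * x - ((1 + η) * (x + j) - (1 - η) * (j - η * x))) / Real.log x := by
      field_simp
    have e2 : 0 ≤ (1 + ε) * (x : ℝ) - ((1 + η) * (x + j) - (1 - η) * (j - η * x)) := by
      have m1 : η * j ≤ η * x := mul_le_mul_of_nonneg_left hjx hη0.le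
      have m2 : 0 ≤ η * (η * x) := by positivity
      have m3 : 4 * η * x ≤ ε * x := mul_le_mul_of_nonneg_right hη2 hx3.le
      nlinarith
    have e3 := div_nonneg e2 hlx.le
    linarith
  linarith

/-- the number of shifts in `[1, Y]` of a point `n ≤ Y` to the primes -/
theorem window (ε : ℝ) (hε : 0 < ε) : ∃ Y₀ : ℕ, ∀ Y : ℕ, Y₀ ≤ Y → ∀ n : ℕ, n ≤ Y →
    (1 - ε) * (Y / Real.log Y) ≤ (((Icc 1 Y).filter (fun a => (n + a).Prime)).card : ℝ) ∧
    (((Icc 1 Y).filter (fun a => (n + a).Prime)).card : ℝ) ≤ (1 + ε) * (Y / Real.log Y) := by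
  obtain ⟨x₁, h1⟩ := Pool.Agent.H386R2.HL.pnt_window ε hε
  obtain ⟨x₂, h2⟩ := pnt_window_up ε hε
  refine ⟨max x₁ x₂, fun Y hY n hn => ?_⟩
  have h3 := h1 Y ((le_max_left _ _).trans hY) n hn
  have h4 := h2 Y ((le_max_right _ _).trans hY) n hn
  have h5 := Pool.Agent.H386R2.HL.card_shift_prime Y n
  have h6 : (Icc 1 Y).filter (fun a => (a + n).Prime) = (Icc 1 Y).filter (fun a => (n + a).Prime) := by
    apply filter_congr
    intro a _
    rw [add_comm]
  rw [h6] at h5
  have h7 : (((Icc 1 Y).filter (fun a => (n + a).Prime)).card : ℝ) + Nat.primeCounting n = Nat.primeCounting (Y + n) := by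
    exact_mod_cast h5
  constructor <;> linarith

end Pool.Agent.Q145.RC
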