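import Pool.Agent.Q145.RC.Law

set_option autoImplicit false
set_option maxHeartbeats 4000000

/-! # The law for all initial segments: the grid -/

namespace Pool.Agent.Q145.RC

open Finset Filter
open Pool.Agent.Q145.MT (card_filter_inst)

open scoped Classical

/-- the law for all initial segments -/
def All (ε : ℝ) (V : Finset ℕ) (X Y K : ℕ) (s : Fin K → ℕ) : Prop := ∀ k ≤ K,
  (kap X Y k ≤ 1 - ε → (X : ℝ) ^ (1 - kap X Y k - ε) ≤ (missed V k s).card ∧
    ((missed V k s).card : ℝ) ≤ (X : ℝ) ^ (1 - kap X Y k + ε)) ∧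
  (1 + ε ≤ kap X Y k → missed V k s = ∅)

theorem law (ε : ℝ) (hε : 0 < ε) (hε1 : ε ≤ 1) (D : ℕ) : ∃ X₀ : ℕ, ∀ (V : Finset ℕ) (X Y : ℕ), V.card = X →
    X₀ ≤ X → X ≤ Y → (∀ n ∈ V, n ≤ Y) → Real.log Y ≤ Real.log X ^ D → ∀ K : ℕ,
    (((seqs Y K).filter (fun s => ¬ All ε V X Y K s)).card : ℝ) ≤ ε * (Y : ℝ) ^ K := by
  set J : ℕ := ⌈4 / ε⌉₊ + 5 with hJ
  have hJr : 4 / ε + 5 ≤ J := by
    rw [hJ]
    push_cast
    linarith [Nat.le_ceil (4 / ε)]
  have hJ0 : (0 : ℝ) < J := by
    have : 0 < 4 / ε := by positivity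
    linarith
  set ε' : ℝ := ε / J with hε'
  have hε'0 : 0 < ε' := by positivity
  have hε'1 : ε' ≤ ε / 4 := by
    apply div_le_div_of_nonneg_left hε.le (by norm_num)
    have : 0 < 4 / ε := by positivity
    linarith
  obtain ⟨X₁, h1⟩ := fix ε' hε'0 (by linarith) D
  have hl : Tendsto (fun Y : ℕ => Real.log Y) atTop atTop :=
    Real.tendsto_log_atTop.comp tendsto_natCast_atTop_atTop
  obtain ⟨X₂, h2⟩ := eventually_atTop.1 (hl.eventually_ge_atTop (8 / ε))
  refine ⟨max X₁ (max X₂ 3), fun V X Y hVX hX hXY hVY hD K => ?_⟩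
  have hX₁ : X₁ ≤ X := (le_max_left _ _).trans hX
  have hX₂ : X₂ ≤ X := ((le_max_left _ _).trans (le_max_right _ _)).trans hX
  have hX₃ : 3 ≤ X := ((le_max_right _ _).trans (le_max_right _ _)).trans hX
  have hA8 := h2 X hX₂
  have hXr : (3 : ℝ) ≤ X := by exact_mod_cast hX₃
  have hXYr : (X : ℝ) ≤ Y := by exact_mod_cast hXY
  have hX0 : (0 : ℝ) < X := by linarith
  have hX1 : (1 : ℝ) ≤ X := by linarith
  set A := Real.log (X : ℝ) with hA
  set L := Real.log (Y : ℝ) with hL
  have hAL : A ≤ L := Real.log_le_log hX0 hXYr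
  have h8 : 8 ≤ 8 / ε := by
    rw [le_div_iff₀ hε]
    linarith
  set P : ℝ := A * L with hP
  have hP8 : 8 / ε ≤ P := by
    rw [hP]
    nlinarith
  have hP0 : 0 < P := by linarith
  have h1P : 1 ≤ ε / 8 * P := by
    rw [div_le_iff₀ hε] at hP8
    linarith
  have hkap : ∀ k : ℕ, kap X Y k = k / P := fun k => rfl
  set kj : ℕ → ℕ := fun j => min ⌊j * (ε / 4) * P⌋₊ K with hkj
  have hkjK : ∀ j, kj j ≤ K := fun j => min_le_right _ _
  -- the union bound
  have hun : (seqs Y K).filter (fun s => ¬ All ε V X Y K s) ⊆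
      (range J).biUnion (fun j => (seqs Y K).filter (fun s => ¬ Fix ε' V X Y (kj j) (fun i => s (Fin.castLE (hkjK j) i)))) := by
    intro s hs
    obtain ⟨h3, h4⟩ := mem_filter.1 hs
    by_contra h5
    apply h4
    have hfix : ∀ j < J, Fix ε' V X Y (kj j) (fun i => s (Fin.castLE (hkjK j) i)) := by
      intro j hj
      by_contra h6
      exact h5 (mem_biUnion.2 ⟨j, mem_range.2 hj, mem_filter.2 ⟨h3, h6⟩⟩)
    intro k hk
    have hk0 : (0 : ℝ) ≤ k := Nat.cast_nonneg _
    constructor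
    · intro hκ
      rw [hkap] at hκ ⊢
      set κ : ℝ := (k : ℝ) / P with hκd
      have hκ0 : 0 ≤ κ := by positivity
      have hkP : (k : ℝ) = κ * P := by rw [hκd]; field_simp
      set j : ℕ := ⌊κ / (ε / 4)⌋₊ with hj
      have hj1 : (j : ℝ) ≤ κ / (ε / 4) := Nat.floor_le (by positivity)
      have hj2 : κ / (ε / 4) < j + 1 := Nat.lt_floor_add_one _
      rw [le_div_iff₀ (by positivity)] at hj1
      rw [div_lt_iff₀ (by positivity)] at hj2
      have hjJ : j + 1 < J := by
        have h6 : (j : ℝ) ≤ 4 / ε := by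
          rw [le_div_iff₀ hε]
          nlinarith
        have h7 : ((j + 1 : ℕ) : ℝ) < J := by
          push_cast
          linarith
        exact_mod_cast h7
      constructor
      · -- lower bound
        have h6 : k ≤ kj (j + 1) := by
          apply le_min _ hk
          apply Nat.le_floor
          rw [hkP]
          push_cast
          exact mul_le_mul_of_nonneg_right hj2.le hP0.le
        have h7 : ((kj (j + 1) : ℕ) : ℝ) / P ≤ κ + ε / 4 := by
          rw [div_le_iff₀ hP0]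
          have e1 : ((kj (j + 1) : ℕ) : ℝ) ≤ ⌊((j + 1 : ℕ) : ℝ) * (ε / 4) * P⌋₊ := by exact_mod_cast min_le_left _ _
          have e2 : (⌊((j + 1 : ℕ) : ℝ) * (ε / 4) * P⌋₊ : ℝ) ≤ ((j + 1 : ℕ) : ℝ) * (ε / 4) * P := Nat.floor_le (by positivity)
          push_cast at e1 e2
          nlinarith
        have h9 := ((hfix (j + 1) hjJ).1 (by rw [hkap]; linarith)).1
        rw [← missed_surv, hkap] at h9
        have h10 : ((missed V (kj (j + 1)) s).card : ℝ) ≤ (missed V k s).card := by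
          exact_mod_cast card_le_card (missed_mono V h6 s)
        refine le_trans (Real.rpow_le_rpow_of_exponent_le hX1 ?_) (h9.trans h10)
        linarith
      · -- upper bound
        have h6 : ⌊(j : ℝ) * (ε / 4) * P⌋₊ ≤ k := by
          have e1 : (⌊(j : ℝ) * (ε / 4) * P⌋₊ : ℝ) ≤ (j : ℝ) * (ε / 4) * P := Nat.floor_le (by positivity)
          have e2 : (j : ℝ) * (ε / 4) * P ≤ κ * P := mul_le_mul_of_nonneg_right hj1 hP0.le
          have e3 : (⌊(j : ℝ) * (ε / 4) * P⌋₊ : ℝ) ≤ k := by linarith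
          exact_mod_cast e3
        have h6' : kj j = ⌊(j : ℝ) * (ε / 4) * P⌋₊ := min_eq_left (h6.trans hk)
        have h7 : κ - ε / 4 - ε / 8 ≤ ((kj j : ℕ) : ℝ) / P := by
          rw [le_div_iff₀ hP0, h6']
          have e1 := Nat.lt_floor_add_one ((j : ℝ) * (ε / 4) * P)
          nlinarith
        have h7' : ((kj j : ℕ) : ℝ) / P ≤ κ := by
          rw [div_le_iff₀ hP0, h6', ← hkP]
          exact_mod_cast h6
        have h9 := ((hfix j (by omega)).1 (by rw [hkap]; linarith)).2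
        rw [← missed_surv, hkap] at h9
        have h10 : ((missed V k s).card : ℝ) ≤ (missed V (kj j) s).card := by
          have : kj j ≤ k := by rw [h6']; exact h6
          exact_mod_cast card_le_card (missed_mono V this s)
        refine le_trans (h10.trans h9) (Real.rpow_le_rpow_of_exponent_le hX1 ?_)
        linarith
    · intro hκ
      rw [hkap, le_div_iff₀ hP0] at hκ
      set j : ℕ := ⌈(1 + ε / 2) / (ε / 4)⌉₊ with hj
      have hj1 : (1 + ε / 2) / (ε / 4) ≤ j := Nat.le_ceil _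
      have hj2 : (j : ℝ) < (1 + ε / 2) / (ε / 4) + 1 := Nat.ceil_lt_add_one (by positivity)
      have hj2' : (j : ℝ) * (ε / 4) < 1 + ε / 2 + ε / 4 := by
        have e1 : ((1 + ε / 2) / (ε / 4) + 1) * (ε / 4) = 1 + ε / 2 + ε / 4 := by field_simp
        have e2 := mul_lt_mul_of_pos_right hj2 (show 0 < ε / 4 by positivity)
        linarith
      rw [div_le_iff₀ (by positivity)] at hj1
      have hjJ : j < J := by
        have h6 : (j : ℝ) < 4 / ε + 3 := by
          have : (1 + ε / 2) / (ε / 4) + 1 = 4 / ε + 3 := by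
            field_simp
            ring
          linarith
        have h7 : (j : ℝ) < J := by linarith
        exact_mod_cast h7
      have h6 : ⌊(j : ℝ) * (ε / 4) * P⌋₊ ≤ k := by
        have e1 : (⌊(j : ℝ) * (ε / 4) * P⌋₊ : ℝ) ≤ (j : ℝ) * (ε / 4) * P := Nat.floor_le (by positivity)
        have e2 : (j : ℝ) * (ε / 4) * P ≤ (1 + ε / 2 + ε / 4) * P := mul_le_mul_of_nonneg_right hj2'.le hP0.le
        have e3 : (⌊(j : ℝ) * (ε / 4) * P⌋₊ : ℝ) ≤ k := by nlinarith
        exact_mod_cast e3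
      have h6' : kj j = ⌊(j : ℝ) * (ε / 4) * P⌋₊ := min_eq_left (h6.trans hk)
      have h7 : 1 + ε' ≤ kap X Y (kj j) := by
        rw [hkap, le_div_iff₀ hP0, h6']
        have e1 := Nat.lt_floor_add_one ((j : ℝ) * (ε / 4) * P)
        have e2 : (1 + ε / 2) * P ≤ (j : ℝ) * (ε / 4) * P := mul_le_mul_of_nonneg_right hj1 hP0.le
        nlinarith
      have h9 := (hfix j hjJ).2 h7
      rw [← missed_surv, card_eq_zero] at h9
      have h10 : missed V k s ⊆ missed V (kj j) s := missed_mono V (by rw [h6']; exact h6) s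
      rw [h9] at h10
      exact subset_empty.1 h10
  have h3 : (((seqs Y K).filter (fun s => ¬ All ε V X Y K s)).card : ℝ) ≤ ∑ j ∈ range J, ε' * (Y : ℝ) ^ K := by
    have h4 : (((seqs Y K).filter (fun s => ¬ All ε V X Y K s)).card : ℝ) ≤
        ∑ j ∈ range J, (((seqs Y K).filter (fun s => ¬ Fix ε' V X Y (kj j) (fun i => s (Fin.castLE (hkjK j) i)))).card : ℝ) := by
      exact_mod_cast (card_le_card hun).trans card_biUnion_le
    refine h4.trans (sum_le_sum fun j _ => ?_)
    have h5 := card_restrict Y (hkjK j) (fun s => ¬ Fix ε' V X Y (kj j) s)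
    have h6 : (((seqs Y K).filter (fun s => ¬ Fix ε' V X Y (kj j) (fun i => s (Fin.castLE (hkjK j) i)))).card : ℝ) ≤
        (((seqs Y (kj j)).filter (fun s => ¬ Fix ε' V X Y (kj j) s)).card : ℝ) * (Y : ℝ) ^ (K - kj j) := by
      refine (le_of_eq (congrArg Nat.cast (card_filter_inst _ _ _ _))).trans ((Nat.cast_le.2 h5).trans (le_of_eq ?_))
      rw [Nat.cast_mul, Nat.cast_pow]
      exact congrArg (fun t : ℕ => (t : ℝ) * (Y : ℝ) ^ (K - kj j)) (card_filter_inst _ _ _ _)
    refine h6.trans ?_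
    calc (((seqs Y (kj j)).filter (fun s => ¬ Fix ε' V X Y (kj j) s)).card : ℝ) * (Y : ℝ) ^ (K - kj j)
        ≤ ε' * (Y : ℝ) ^ (kj j) * (Y : ℝ) ^ (K - kj j) :=
          mul_le_mul_of_nonneg_right (h1 V X Y hVX hX₁ hXY hVY hD (kj j)) (by positivity)
      _ = ε' * (Y : ℝ) ^ K := by rw [mul_assoc, ← pow_add, Nat.add_sub_cancel' (hkjK j)]
  refine h3.trans (le_of_eq ?_)
  rw [sum_const, card_range, nsmul_eq_mul, hε']
  field_simp

end Pool.Agent.Q145.RC
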