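import Pool.Agent.Q145.RC.Main

set_option autoImplicit false
set_option maxHeartbeats 4000000

/-! # The law for all initial segments -/

namespace Pool.Agent.Q145.RC

open Finset Filter
open Pool.Agent.Q145.MT (card_filter_inst)

open scoped Classical

/-- the law for `k` shifts -/
def Fix (ε : ℝ) (V : Finset ℕ) (X Y k : ℕ) (s : Fin k → ℕ) : Prop :=
  (kap X Y k ≤ 1 - ε → (X : ℝ) ^ (1 - kap X Y k - ε) ≤ surv V s ∧
    (surv V s : ℝ) ≤ (X : ℝ) ^ (1 - kap X Y k + ε)) ∧
  (1 + ε ≤ kap X Y k → surv V s = 0)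

theorem fix (ε : ℝ) (hε : 0 < ε) (hε1 : ε ≤ 1) (D : ℕ) : ∃ X₀ : ℕ, ∀ (V : Finset ℕ) (X Y : ℕ), V.card = X →
    X₀ ≤ X → X ≤ Y → (∀ n ∈ V, n ≤ Y) → Real.log Y ≤ Real.log X ^ D → ∀ k : ℕ,
    (((seqs Y k).filter (fun s => ¬ Fix ε V X Y k s)).card : ℝ) ≤ ε * (Y : ℝ) ^ k := by
  obtain ⟨X₁, h1⟩ := low (ε / 2) (by positivity) (by linarith) D
  obtain ⟨Y₁, h2⟩ := up (ε / 4) (by positivity) (by linarith)
  obtain ⟨X₂, h3⟩ := growth2 (ε / 4) 1 1 1 (by positivity) one_pos one_pos one_pos D 0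
  refine ⟨max X₁ (max Y₁ X₂), fun V X Y hVX hX hXY hVY hD k => ?_⟩
  have hX₁ : X₁ ≤ X := (le_max_left _ _).trans hX
  have hY₁ : Y₁ ≤ Y := ((le_max_left _ _).trans (le_max_right _ _)).trans (hX.trans hXY)
  have hX₂ : X₂ ≤ X := ((le_max_right _ _).trans (le_max_right _ _)).trans hX
  obtain ⟨-, g2, g3, -, -, -, g7⟩ := h3 X Y hX₂ hXY hD
  have hXr : (3 : ℝ) ≤ X := by exact_mod_cast g2
  have hXYr : (X : ℝ) ≤ Y := by exact_mod_cast hXY
  have hX0 : (0 : ℝ) < X := by linarith
  have hY0 : (0 : ℝ) < Y := by linarith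
  set A := Real.log (X : ℝ) with hA
  set L := Real.log (Y : ℝ) with hL
  set κ := kap X Y k with hκ
  have hAL : A ≤ L := Real.log_le_log hX0 hXYr
  have hL0 : 0 < L := by linarith
  have hA0 : 0 < A := by linarith
  have hκ0 : 0 ≤ κ := by
    rw [hκ]
    unfold kap
    positivity
  have hkL : (k : ℝ) / L = κ * A := by
    rw [hκ]
    unfold kap
    rw [← hA, ← hL]
    field_simp
  have hYk : (0 : ℝ) ≤ (Y : ℝ) ^ k := by positivity
  have hexp : Real.exp (-(ε / 4 * A)) ≤ ε / 4 := by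
    rw [Real.exp_neg, inv_le_comm₀ (Real.exp_pos _) (by positivity)]
    rw [inv_le_iff_one_le_mul₀ (by positivity)]
    linarith
  have h7 : (X : ℝ) = Real.exp A := (Real.exp_log hX0).symm
  have hpow : ∀ u : ℝ, (X : ℝ) ^ u = Real.exp (A * u) := fun u => by rw [Real.rpow_def_of_pos hX0]
  have hup : ∀ t : ℝ, 0 < t → (((seqs Y k).filter (fun s => t ≤ surv V s)).card : ℝ) ≤
      (Y : ℝ) ^ k * (Real.exp (A * (1 - (1 - ε / 4) * κ)) / t) := by
    intro t ht
    have h4 := h2 V Y hY₁ hVY k t ht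
    rw [hVX] at h4
    refine h4.trans (le_of_eq ?_)
    congr 2
    have h5 : (1 - ε / 4) * k / L = (1 - ε / 4) * (κ * A) := by rw [← hkL]; ring
    rw [h5]
    conv_lhs => rw [h7]
    rw [← Real.exp_add]
    congr 1
    ring
  rcases lt_or_ge (1 - ε) κ with hc | hc
  · rcases lt_or_ge κ (1 + ε) with hd | hd
    · -- nothing to prove
      have h4 : (seqs Y k).filter (fun s => ¬ Fix ε V X Y k s) = ∅ := by
        apply filter_false_of_mem
        intro s _ h5
        apply h5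
        exact ⟨fun h6 => absurd h6 (not_le.2 hc), fun h6 => absurd hd (not_lt.2 h6)⟩
      rw [h4, card_empty, Nat.cast_zero]
      positivity
    · have h4 : (seqs Y k).filter (fun s => ¬ Fix ε V X Y k s) ⊆ (seqs Y k).filter (fun s => (1 : ℝ) ≤ surv V s) := by
        intro s hs
        obtain ⟨h5, h6⟩ := mem_filter.1 hs
        refine mem_filter.2 ⟨h5, ?_⟩
        by_contra h8
        apply h6
        refine ⟨fun h9 => absurd h9 (not_le.2 hc), fun _ => ?_⟩
        by_contra h9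
        apply h8
        exact_mod_cast Nat.one_le_iff_ne_zero.2 h9
      have h5 : (((seqs Y k).filter (fun s => ¬ Fix ε V X Y k s)).card : ℝ) ≤
          (((seqs Y k).filter (fun s => (1 : ℝ) ≤ surv V s)).card : ℝ) := by exact_mod_cast card_le_card h4
      refine (h5.trans (hup 1 one_pos)).trans ?_
      rw [div_one, mul_comm]
      apply mul_le_mul_of_nonneg_right _ hYk
      calc Real.exp (A * (1 - (1 - ε / 4) * κ)) ≤ Real.exp (-(ε / 4 * A)) := by
            apply Real.exp_le_exp.2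
            have : 1 - (1 - ε / 4) * κ ≤ -(ε / 4) := by nlinarith
            nlinarith
        _ ≤ ε / 4 := hexp
        _ ≤ ε := by linarith
  · have h4 : (seqs Y k).filter (fun s => ¬ Fix ε V X Y k s) ⊆
        (seqs Y k).filter (fun s => (surv V s : ℝ) ≤ (X : ℝ) ^ (1 - κ - ε / 2)) ∪
        (seqs Y k).filter (fun s => (X : ℝ) ^ (1 - κ + ε) ≤ surv V s) := by
      intro s hs
      obtain ⟨h5, h6⟩ := mem_filter.1 hs
      by_contra h8
      rw [mem_union, not_or, mem_filter, mem_filter] at h8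
      obtain ⟨h9, h10⟩ := h8
      apply h6
      refine ⟨fun _ => ⟨?_, ?_⟩, fun h11 => by linarith⟩
      · have h11 : (X : ℝ) ^ (1 - κ - ε / 2) < surv V s := by
          by_contra h12
          exact h9 ⟨h5, not_lt.1 h12⟩
        refine le_trans (Real.rpow_le_rpow_of_exponent_le (by linarith) (by linarith)) h11.le
      · by_contra h12
        exact h10 ⟨h5, (not_le.1 h12).le⟩
    have h5 : (((seqs Y k).filter (fun s => ¬ Fix ε V X Y k s)).card : ℝ) ≤
        (((seqs Y k).filter (fun s => (surv V s : ℝ) ≤ (X : ℝ) ^ (1 - κ - ε / 2))).card : ℝ) +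
        (((seqs Y k).filter (fun s => (X : ℝ) ^ (1 - κ + ε) ≤ surv V s)).card : ℝ) := by
      exact_mod_cast (card_le_card h4).trans (card_union_le _ _)
    have h6 := h1 V X Y hVX hX₁ hXY hVY hD k (by rw [← hκ]; linarith)
    rw [← hκ] at h6
    have h8 := hup ((X : ℝ) ^ (1 - κ + ε)) (by positivity)
    have h9 : Real.exp (A * (1 - (1 - ε / 4) * κ)) / (X : ℝ) ^ (1 - κ + ε) ≤ ε / 4 := by
      rw [hpow, ← Real.exp_sub]
      refine le_trans (Real.exp_le_exp.2 ?_) hexp
      have : (1 - (1 - ε / 4) * κ) - (1 - κ + ε) ≤ -(ε / 4) := by nlinarith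
      nlinarith
    have h10 := mul_le_mul_of_nonneg_left h9 hYk
    have h11 : ε / 2 * (Y : ℝ) ^ k + (Y : ℝ) ^ k * (ε / 4) ≤ ε * (Y : ℝ) ^ k := by nlinarith
    linarith

/-- restriction to an initial segment -/
theorem card_restrict (Y : ℕ) {k K : ℕ} (h : k ≤ K) (B : (Fin k → ℕ) → Prop) :
    ((seqs Y K).filter (fun s => B (fun i => s (Fin.castLE h i)))).card ≤
      ((seqs Y k).filter B).card * Y ^ (K - k) := by
  rw [← card_seqs Y (K - k), ← card_product]
  apply card_le_card_of_injOn (fun s => (fun i => s (Fin.castLE h i), fun i : Fin (K - k) => s ⟨k + i, by omega⟩))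
  · intro s hs
    obtain ⟨h1, h2⟩ := mem_filter.1 (mem_coe.1 hs)
    unfold seqs at h1
    rw [Fintype.mem_piFinset] at h1
    rw [mem_coe, mem_product]
    refine ⟨mem_filter.2 ⟨?_, h2⟩, ?_⟩
    · exact Fintype.mem_piFinset.2 fun i => h1 _
    · exact Fintype.mem_piFinset.2 fun i => h1 _
  · intro s _ s' _ hss
    simp only [Prod.mk.injEq] at hss
    ext i
    rcases lt_or_ge (i : ℕ) k with hi | hi
    · have := congrFun hss.1 ⟨i, hi⟩
      simpa using this
    · have := congrFun hss.2 ⟨i - k, by omega⟩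
      simp only at this
      convert this using 2 <;> (ext; simp; omega)

/-- the points missed by the first `k` shifts -/
noncomputable def missed (V : Finset ℕ) (k : ℕ) {K : ℕ} (s : Fin K → ℕ) : Finset ℕ :=
  V.filter (fun n => ∀ i : Fin K, (i : ℕ) < k → ¬ (n + s i).Prime)

theorem missed_surv (V : Finset ℕ) {k K : ℕ} (h : k ≤ K) (s : Fin K → ℕ) :
    (missed V k s).card = surv V (fun i => s (Fin.castLE h i)) := by
  unfold missed surv
  congr 1
  apply filter_congr
  intro n _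
  constructor
  · intro h1 i
    exact h1 (Fin.castLE h i) i.isLt
  · intro h1 i hi
    exact h1 ⟨i, hi⟩

theorem missed_mono (V : Finset ℕ) {k k' K : ℕ} (h : k ≤ k') (s : Fin K → ℕ) : missed V k' s ⊆ missed V k s := by
  unfold missed
  intro n hn
  obtain ⟨h1, h2⟩ := mem_filter.1 hn
  exact mem_filter.2 ⟨h1, fun i hi => h2 i (by omega)⟩

end Pool.Agent.Q145.RC
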