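import Pool.Agent.Q145.RC.Kill
import Pool.Agent.Q145.RC.Trip
import Pool.Agent.Q145.RC.Win

set_option autoImplicit false
set_option maxHeartbeats 4000000

/-! # The law for a fixed number of shifts -/

namespace Pool.Agent.Q145.RC

open Finset Filter
open Pool.Agent.Q145.MT (card_filter_inst)

open scoped Classical

/-- the number of the `n ∈ V` none of whose shifts is a prime -/
noncomputable def surv (V : Finset ℕ) {k : ℕ} (s : Fin k → ℕ) : ℕ :=
  (V.filter (fun n => ∀ i, ¬ (n + s i).Prime)).card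

/-- the normalised number of shifts -/
noncomputable def kap (X Y k : ℕ) : ℝ := (k : ℝ) / (Real.log X * Real.log Y)

/-- all sequences -/
def seqs (Y k : ℕ) : Finset (Fin k → ℕ) := Fintype.piFinset (fun _ : Fin k => Icc 1 Y)

theorem card_seqs (Y k : ℕ) : (seqs Y k).card = Y ^ k := by
  unfold seqs
  rw [Fintype.card_piFinset_const, Nat.card_Icc, Nat.add_sub_cancel]

theorem sum_surv (V : Finset ℕ) (Y k : ℕ) : ∑ s ∈ seqs Y k, surv V s =
    ∑ n ∈ V, ((Icc 1 Y).filter (fun a => ¬ (n + a).Prime)).card ^ k := by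
  have h1 : ∀ s ∈ seqs Y k, surv V s = ∑ n ∈ V, if ∀ i, ¬ (n + s i).Prime then 1 else 0 := by
    intro s _
    unfold surv
    rw [card_filter]
  rw [sum_congr rfl h1, sum_comm]
  apply sum_congr rfl
  intro n _
  rw [← card_filter, ← Fintype.card_piFinset_const]
  congr 1
  ext s
  unfold seqs
  rw [mem_filter, Fintype.mem_piFinset, Fintype.mem_piFinset]
  constructor
  · rintro ⟨h1, h2⟩ i
    exact mem_filter.2 ⟨h1 i, h2 i⟩
  · intro h1
    exact ⟨fun i => (mem_filter.1 (h1 i)).1, fun i => (mem_filter.1 (h1 i)).2⟩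

/-- the first moment -/
theorem up (η : ℝ) (hη : 0 < η) (hη1 : η < 1) : ∃ Y₀ : ℕ, ∀ (V : Finset ℕ) (Y : ℕ), Y₀ ≤ Y → (∀ n ∈ V, n ≤ Y) →
    ∀ k : ℕ, ∀ t : ℝ, 0 < t →
    (((seqs Y k).filter (fun s => t ≤ surv V s)).card : ℝ) ≤
      (Y : ℝ) ^ k * (V.card * Real.exp (-((1 - η) * k / Real.log Y)) / t) := by
  obtain ⟨Y₀, h0⟩ := window η hη
  refine ⟨max Y₀ 3, fun V Y hY hXY k t ht => ?_⟩
  have hY3 : 3 ≤ Y := (le_max_right _ _).trans hY
  have hYr : (3 : ℝ) ≤ Y := by exact_mod_cast hY3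
  have hY0 : (0 : ℝ) < Y := by linarith
  have hL : 0 < Real.log (Y : ℝ) := Real.log_pos (by linarith)
  have h1 : (((seqs Y k).filter (fun s => t ≤ surv V s)).card : ℝ) * t ≤ ∑ s ∈ seqs Y k, (surv V s : ℝ) := by
    calc (((seqs Y k).filter (fun s => t ≤ surv V s)).card : ℝ) * t
        = ∑ _s ∈ (seqs Y k).filter (fun s => t ≤ surv V s), t := by rw [sum_const, nsmul_eq_mul]
      _ ≤ ∑ s ∈ (seqs Y k).filter (fun s => t ≤ surv V s), (surv V s : ℝ) :=
          sum_le_sum fun s hs => (mem_filter.1 hs).2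
      _ ≤ _ := sum_le_sum_of_subset_of_nonneg (filter_subset _ _) (fun _ _ _ => Nat.cast_nonneg _)
  have h2 : ∑ s ∈ seqs Y k, (surv V s : ℝ) ≤ (Y : ℝ) ^ k * (V.card * Real.exp (-((1 - η) * k / Real.log Y))) := by
    have h3 : ∑ s ∈ seqs Y k, (surv V s : ℝ) =
        ∑ n ∈ V, (((Icc 1 Y).filter (fun a => ¬ (n + a).Prime)).card : ℝ) ^ k := by
      exact_mod_cast sum_surv V Y k
    rw [h3]
    have h4 : ∀ n ∈ V, (((Icc 1 Y).filter (fun a => ¬ (n + a).Prime)).card : ℝ) ^ k ≤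
        (Y : ℝ) ^ k * Real.exp (-((1 - η) * k / Real.log Y)) := by
      intro n hn
      have h5 := (h0 Y ((le_max_left _ _).trans hY) n (hXY n hn)).1
      have h6 := card_filter_add_card_filter_not (s := Icc 1 Y) (fun a => (n + a).Prime)
      rw [Nat.card_Icc, Nat.add_sub_cancel] at h6
      have h7 : (((Icc 1 Y).filter (fun a => (n + a).Prime)).card : ℝ) +
          (((Icc 1 Y).filter (fun a => ¬ (n + a).Prime)).card : ℝ) = Y := by exact_mod_cast h6
      have h8 : (((Icc 1 Y).filter (fun a => ¬ (n + a).Prime)).card : ℝ) ≤ Y * Real.exp (-((1 - η) / Real.log Y)) := by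
        have h9 := Real.add_one_le_exp (-((1 - η) / Real.log (Y : ℝ)))
        have h10 : (Y : ℝ) * (-((1 - η) / Real.log (Y : ℝ)) + 1) ≤ Y * Real.exp (-((1 - η) / Real.log (Y : ℝ))) :=
          mul_le_mul_of_nonneg_left h9 hY0.le
        have h11 : (Y : ℝ) * (-((1 - η) / Real.log (Y : ℝ)) + 1) = Y - (1 - η) * (Y / Real.log Y) := by ring
        linarith
      calc (((Icc 1 Y).filter (fun a => ¬ (n + a).Prime)).card : ℝ) ^ k ≤ (Y * Real.exp (-((1 - η) / Real.log Y))) ^ k :=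
            pow_le_pow_left₀ (Nat.cast_nonneg _) h8 k
        _ = (Y : ℝ) ^ k * Real.exp (-((1 - η) * k / Real.log Y)) := by
            rw [mul_pow, ← Real.exp_nat_mul]
            congr 2
            ring
    refine (sum_le_sum h4).trans (le_of_eq ?_)
    rw [sum_const, nsmul_eq_mul]
    ring
  rw [← mul_div_assoc, le_div_iff₀ ht]
  exact h1.trans h2

/-- the growth conditions for the lower bound -/
theorem growth2 (ε C₂ C₃ B : ℝ) (hε : 0 < ε) (hC₂ : 0 < C₂) (hC₃ : 0 < C₃) (hB : 0 < B) (D Y₁ : ℕ) :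
    ∃ X₀ : ℕ, ∀ X Y : ℕ, X₀ ≤ X → X ≤ Y → Real.log Y ≤ Real.log X ^ D →
      Y₁ ≤ Y ∧ 3 ≤ X ∧ 1 ≤ Real.log X ∧ 1 ≤ Real.log (Real.log Y) ∧
      2 * C₂ * Real.log (Real.log Y) ≤ ε * Real.log X ∧
      22 * C₃ * Real.log (Real.log Y) ^ 2 ≤ ε * Real.log Y ∧
      B ≤ ε * Real.exp (ε * Real.log X) := by
  have hl : Tendsto (fun Y : ℕ => Real.log Y) atTop atTop :=
    Real.tendsto_log_atTop.comp tendsto_natCast_atTop_atTop
  have hll : Tendsto (fun Y : ℕ => Real.log (Real.log Y)) atTop atTop := Real.tendsto_log_atTop.comp hl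
  have a1 : ∀ᶠ X : ℕ in atTop, 2 * C₂ * (D * Real.log (Real.log X)) ≤ ε * Real.log X := by
    have h1 := (Real.isLittleO_log_id_atTop.bound (show (0 : ℝ) < ε / (2 * C₂ * (D + 1)) by positivity))
    have h2 := hl.eventually h1
    filter_upwards [h2, hl.eventually_ge_atTop 1, hll.eventually_ge_atTop 0] with X h3 h4 h5
    rw [id, Real.norm_of_nonneg h5, Real.norm_of_nonneg (by linarith), div_mul_eq_mul_div,
      le_div_iff₀ (by positivity)] at h3
    nlinarith [mul_nonneg hC₂.le h5]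
  have a2 : ∀ᶠ Y : ℕ in atTop, 22 * C₃ * Real.log (Real.log Y) ^ 2 ≤ ε * Real.log Y := by
    have h1 := (isLittleO_log_rpow_rpow_atTop (2 : ℝ) (show (0 : ℝ) < 1 by norm_num)).bound
      (show (0 : ℝ) < ε / (22 * C₃) by positivity)
    have h2 := hl.eventually h1
    filter_upwards [h2, hl.eventually_ge_atTop 1, hll.eventually_ge_atTop 0] with X h3 h4 h5
    rw [show (2 : ℝ) = ((2 : ℕ) : ℝ) by norm_num, Real.rpow_natCast, Real.rpow_one,
      Real.norm_of_nonneg (by positivity), Real.norm_of_nonneg (by linarith), div_mul_eq_mul_div,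
      le_div_iff₀ (by positivity)] at h3
    linarith
  have a3 : ∀ᶠ X : ℕ in atTop, B ≤ ε * Real.exp (ε * Real.log X) :=
    ((Real.tendsto_exp_atTop.comp (hl.const_mul_atTop hε)).const_mul_atTop hε).eventually_ge_atTop B
  obtain ⟨N₁, h1⟩ := eventually_atTop.1 (a1.and (a3.and ((hl.eventually_ge_atTop 3).and (eventually_ge_atTop 3))))
  obtain ⟨N₂, h2⟩ := eventually_atTop.1 (a2.and (hll.eventually_ge_atTop 1))
  refine ⟨max N₁ (max N₂ Y₁), fun X Y hX hXY hD => ?_⟩
  have hX1 : N₁ ≤ X := (le_max_left _ _).trans hX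
  have hX2 : N₂ ≤ Y := ((le_max_left _ _).trans (le_max_right _ _)).trans (hX.trans hXY)
  have hX3 : Y₁ ≤ Y := ((le_max_right _ _).trans (le_max_right _ _)).trans (hX.trans hXY)
  obtain ⟨b1, b2, b3, b4⟩ := h1 X hX1
  obtain ⟨b5, b6⟩ := h2 Y hX2
  refine ⟨hX3, b4, by linarith, b6, ?_, b5, b2⟩
  have hYX : (X : ℝ) ≤ Y := by exact_mod_cast hXY
  have hX0 : (3 : ℝ) ≤ X := by exact_mod_cast b4
  have hlY : Real.log X ≤ Real.log Y := Real.log_le_log (by linarith) hYX
  have h3 : Real.log (Real.log Y) ≤ D * Real.log (Real.log X) := by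
    rw [← Real.log_pow]
    exact Real.log_le_log (by linarith) hD
  have h4 := mul_le_mul_of_nonneg_left h3 (show 0 ≤ 2 * C₂ by positivity)
  linarith

/-- the lower bound -/
theorem low (ε : ℝ) (hε : 0 < ε) (hε1 : ε ≤ 1) (D : ℕ) : ∃ X₀ : ℕ, ∀ (V : Finset ℕ) (X Y : ℕ), V.card = X →
    X₀ ≤ X → X ≤ Y → (∀ n ∈ V, n ≤ Y) → Real.log Y ≤ Real.log X ^ D → ∀ k : ℕ, kap X Y k ≤ 1 - ε →
    (((seqs Y k).filter (fun s => (surv V s : ℝ) ≤ (X : ℝ) ^ (1 - kap X Y k - ε))).card : ℝ) ≤ ε * (Y : ℝ) ^ k := by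
  set η : ℝ := ε / 8 with hη
  have hη0 : 0 < η := by positivity
  obtain ⟨Y₁, hw⟩ := window η hη0
  obtain ⟨C₂, hC₂, Y₂, h2⟩ := shifts_bd 2 (by norm_num)
  obtain ⟨C₃, hC₃, Y₃, h3⟩ := shifts_bd 3 (by norm_num)
  set M₀ : ℕ := ⌈4 / η⌉₊ + 8 with hM₀
  obtain ⟨X₀, hX₀⟩ := growth2 (ε / 8) C₂ C₃ (1 + M₀) (by positivity) hC₂ hC₃ (by positivity) D (max Y₁ (max Y₂ Y₃))
  refine ⟨X₀, fun V X Y hVX hX hXY hVY hD k hk => ?_⟩
  obtain ⟨g1, g2, g3, g4, g5, g6, g7⟩ := hX₀ X Y hX hXY hD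
  have hY₁ : Y₁ ≤ Y := (le_max_left _ _).trans g1
  have hY₂ : Y₂ ≤ Y := ((le_max_left _ _).trans (le_max_right _ _)).trans g1
  have hY₃ : Y₃ ≤ Y := ((le_max_right _ _).trans (le_max_right _ _)).trans g1
  have hXr : (3 : ℝ) ≤ X := by exact_mod_cast g2
  have hXYr : (X : ℝ) ≤ Y := by exact_mod_cast hXY
  have hX0 : (0 : ℝ) < X := by linarith
  have hY0 : (0 : ℝ) < Y := by linarith
  set A := Real.log (X : ℝ) with hA
  set L := Real.log (Y : ℝ) with hL
  set G := Real.log L with hG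
  set κ := kap X Y k with hκ
  have hAL : A ≤ L := Real.log_le_log hX0 hXYr
  have hL0 : 0 < L := by linarith
  have hA0 : 0 < A := by linarith
  have hκ0 : 0 ≤ κ := by
    rw [hκ]
    unfold kap
    positivity
  have hk' : (k : ℝ) = κ * A * L := by
    rw [hκ]
    unfold kap
    rw [← hA, ← hL]
    field_simp
  have hκ1 : κ ≤ 1 := by linarith
  -- the threshold
  set t : ℝ := (X : ℝ) ^ (1 - κ - ε) with ht
  have ht1 : 1 ≤ t := Real.one_le_rpow (by linarith) (by linarith)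
  set m : ℕ := ⌊t⌋₊ with hm
  set M : ℕ := m + M₀ with hM
  have key := kill (Icc 1 Y) V (fun n a => (n + a).Prime) ((1 + η) / L) (C₂ * G / L ^ 2)
    (C₃ * G ^ 2 / L ^ 3) (by positivity) (by positivity) (by positivity)
    (by
      intro H hH hc
      obtain ⟨n, rfl⟩ := card_eq_one.1 hc
      have hn := hVY n (hH (mem_singleton_self n))
      have h4 := (hw Y hY₁ n hn).2
      have h5 : ((Icc 1 Y).filter (fun a => ∀ n' ∈ ({n} : Finset ℕ), (n' + a).Prime)).card ≤
          ((Icc 1 Y).filter (fun a => (n + a).Prime)).card := by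
        apply card_le_card
        intro a ha
        obtain ⟨h6, h7⟩ := mem_filter.1 ha
        exact mem_filter.2 ⟨h6, h7 n (mem_singleton_self n)⟩
      rw [Nat.card_Icc, Nat.add_sub_cancel]
      refine (le_of_eq (congrArg Nat.cast (card_filter_inst _ _ _ _))).trans ((Nat.cast_le.2 h5).trans ?_)
      calc _ ≤ (1 + η) * (Y / L) := h4
        _ = _ := by ring)
    (by
      intro H hH hc
      have h4 := h2 Y hY₂ H hc (fun n hn => hVY n (hH hn))
      rw [Nat.card_Icc, Nat.add_sub_cancel]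
      refine (le_of_eq (congrArg Nat.cast (card_filter_inst _ _ _ _))).trans (h4.trans (le_of_eq ?_))
      rw [show 2 - 1 = 1 by norm_num, pow_one])
    (by
      intro H hH hc
      have h4 := h3 Y hY₃ H hc (fun n hn => hVY n (hH hn))
      rw [Nat.card_Icc, Nat.add_sub_cancel]
      exact (le_of_eq (congrArg Nat.cast (card_filter_inst _ _ _ _))).trans h4)
    m M (by omega) (by omega) k V (Subset.refl _) (card_pos.1 (by omega))
  rw [← bad_eq] at key
  have h4 : ((seqs Y k).filter (fun s => (surv V s : ℝ) ≤ t)).card =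
      ((Fintype.piFinset (fun _ : Fin k => Icc 1 Y)).filter
        (fun s => (left (fun n a => (n + a).Prime) V s).card ≤ m)).card := by
    unfold seqs
    congr 1
    apply filter_congr
    intro s _
    have h5 : (left (fun n a => (n + a).Prime) V s).card = surv V s := card_filter_inst _ _ _ _
    rw [h5, hm, Nat.le_floor_iff (by linarith)]
  rw [h4]
  refine key.trans ?_
  rw [Nat.card_Icc, Nat.add_sub_cancel, hVX, mul_comm]
  apply mul_le_mul_of_nonneg_right _ (by positivity)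
  -- the first term
  have hMr : (M : ℝ) ≤ (1 + M₀) * t := by
    have : (m : ℝ) ≤ t := Nat.floor_le (by linarith)
    rw [hM]
    push_cast
    have hM₀' : (0 : ℝ) ≤ M₀ := Nat.cast_nonneg _
    nlinarith
  have hM4 : 4 / η ≤ M := by
    have h5 : 4 / η ≤ ⌈4 / η⌉₊ := Nat.le_ceil _
    rw [hM, hM₀]
    push_cast
    have : (0 : ℝ) ≤ m := Nat.cast_nonneg _
    linarith
  have hM0 : (0 : ℝ) < M := lt_of_lt_of_le (by positivity) hM4
  set lam : ℝ := (1 + η) / L + 2 * (C₂ * G / L ^ 2) + 2 * ((1 + η) / L) / M with hlam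
  have hlam0 : 0 ≤ lam := by positivity
  have hlk : lam * k ≤ (κ + 3 * η) * A := by
    have e1 : (1 + η) / L * k ≤ (κ + η) * A := by
      rw [hk']
      have : (1 + η) / L * (κ * A * L) = (1 + η) * κ * A := by field_simp
      rw [this]
      apply mul_le_mul_of_nonneg_right _ hA0.le
      nlinarith
    have e2 : 2 * (C₂ * G / L ^ 2) * k ≤ η * A := by
      rw [hk']
      have h6 : 2 * (C₂ * G / L ^ 2) * (κ * A * L) = 2 * C₂ * G * (κ * (A / L)) := by field_simp
      rw [h6]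
      have h7 : κ * (A / L) ≤ 1 := by
        have : A / L ≤ 1 := by rwa [div_le_one hL0]
        have h8 : 0 ≤ A / L := by positivity
        nlinarith
      have h8 : 0 ≤ 2 * C₂ * G := by positivity
      calc 2 * C₂ * G * (κ * (A / L)) ≤ 2 * C₂ * G * 1 := mul_le_mul_of_nonneg_left h7 h8
        _ ≤ η * A := by
          rw [hη]
          linarith
    have e3 : 2 * ((1 + η) / L) / M * k ≤ η * A := by
      rw [hk']
      have h6 : 2 * ((1 + η) / L) / M * (κ * A * L) = 2 * (1 + η) * κ / M * A := by field_simp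
      rw [h6]
      apply mul_le_mul_of_nonneg_right _ hA0.le
      rw [div_le_iff₀ hM0]
      rw [div_le_iff₀ hη0] at hM4
      have h7 : η ≤ 1 := by linarith
      have h8 : (1 + η) * κ ≤ 2 := by nlinarith
      linarith
    have e4 : lam * k = (1 + η) / L * k + 2 * (C₂ * G / L ^ 2) * k + 2 * ((1 + η) / L) / M * k := by
      rw [hlam]
      ring
    rw [e4]
    linarith
  have h5 : (1 + lam) ^ k ≤ Real.exp ((κ + 3 * η) * A) := by
    calc (1 + lam) ^ k ≤ (Real.exp lam) ^ k := by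
          apply pow_le_pow_left₀ (by positivity)
          linarith [Real.add_one_le_exp lam]
      _ = Real.exp (k * lam) := by rw [Real.exp_nat_mul]
      _ ≤ _ := Real.exp_le_exp.2 (by linarith [mul_comm lam (k : ℝ)])
  have h6 : t = Real.exp (A * (1 - κ - ε)) := by
    rw [ht, Real.rpow_def_of_pos hX0]
  have h7 : (X : ℝ) = Real.exp A := (Real.exp_log hX0).symm
  have h8 : M * (1 + lam) ^ k / X ≤ ε / 2 := by
    rw [div_le_iff₀ hX0]
    calc (M : ℝ) * (1 + lam) ^ k ≤ (1 + M₀) * t * Real.exp ((κ + 3 * η) * A) :=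
          mul_le_mul hMr h5 (by positivity) (by positivity)
      _ = (1 + M₀) * Real.exp (-(5 * η * A)) * X := by
          rw [h6]
          conv_rhs => rw [h7]
          rw [mul_assoc, mul_assoc, ← Real.exp_add, ← Real.exp_add]
          congr 2
          rw [hη]
          ring
      _ ≤ ε / 2 * X := by
          apply mul_le_mul_of_nonneg_right _ hX0.le
          have e1 : (1 + (M₀ : ℝ)) * Real.exp (-(5 * η * A)) ≤ ε / 8 * Real.exp (ε / 8 * A) * Real.exp (-(5 * η * A)) :=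
            mul_le_mul_of_nonneg_right g7 (Real.exp_pos _).le
          refine e1.trans ?_
          rw [mul_assoc, ← Real.exp_add]
          have e2 : Real.exp (ε / 8 * A + -(5 * η * A)) ≤ 1 := by
            rw [Real.exp_le_one_iff, hη]
            nlinarith
          nlinarith
  have h9 : 22 * (C₃ * G ^ 2 / L ^ 3) * k ≤ ε / 2 := by
    rw [hk']
    have e1 : 22 * (C₃ * G ^ 2 / L ^ 3) * (κ * A * L) = 22 * C₃ * G ^ 2 * (κ * (A / L)) / L := by field_simp
    rw [e1, div_le_iff₀ hL0]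
    have h7 : κ * (A / L) ≤ 1 := by
      have : A / L ≤ 1 := by rwa [div_le_one hL0]
      have h8 : 0 ≤ A / L := by positivity
      nlinarith
    have h8 : 0 ≤ 22 * C₃ * G ^ 2 := by positivity
    calc 22 * C₃ * G ^ 2 * (κ * (A / L)) ≤ 22 * C₃ * G ^ 2 * 1 := mul_le_mul_of_nonneg_left h7 h8
      _ ≤ ε / 2 * L := by nlinarith
  linarith

end Pool.Agent.Q145.RC
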